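import Pool.Agent.Mg.Fac6554.Gde478f

set_option autoImplicit false

namespace Pool.Agent.MP_ac6554_pr.Four

open MeasureTheory ProbabilityTheory Filter Topology Set Real EndgameAux GaussAux
open scoped ENNReal Nat

/-- The series of `cosh √v`. -/
noncomputable def pp : FormalMultilinearSeries ℝ ℝ ℝ :=
  FormalMultilinearSeries.ofScalars ℝ fun n => (((2 * n)! : ℕ) : ℝ)⁻¹

theorem pp_ball : HasFPowerSeriesOnBall pp.sum pp 0 ⊤ := by
  have h : pp.radius = ⊤ := pp.radius_eq_top_of_summable_norm fun r => by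
    refine (Real.hasSum_cosh √(r : ℝ)).summable.congr fun n => ?_
    rw [pp, FormalMultilinearSeries.ofScalars_norm, pow_mul, sq_sqrt (NNReal.coe_nonneg r),
      Real.norm_of_nonneg (by positivity), div_eq_inv_mul]
  exact h ▸ pp.hasFPowerSeriesOnBall (by rw [h]; exact ENNReal.zero_lt_top)

/-- The entire function `cosh √v` and its derivatives. -/
noncomputable def HH (k : ℕ) : ℝ → ℝ := deriv^[k] pp.sum

theorem HH_an (k : ℕ) (u : ℝ) : AnalyticAt ℝ (HH k) u :=
  (pp_ball.analyticAt_of_mem (by simp)).iterated_deriv k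

theorem dH (k : ℕ) (u : ℝ) : HasDerivAt (HH k) (HH (k + 1) u) u := by
  have := (HH_an k u).differentiableAt.hasDerivAt
  rwa [HH, ← Function.iterate_succ_apply' deriv] at this

theorem HH_zero (k : ℕ) : HH k 0 = (k ! : ℝ) / ((2 * k)! : ℕ) := by
  have := pp_ball.factorial_smul (1 : ℝ) k
  rw [← iteratedDeriv_eq_iteratedFDeriv, iteratedDeriv_eq_iterate] at this
  rw [HH, ← this, pp, FormalMultilinearSeries.ofScalars_apply_eq]
  simp [div_eq_mul_inv]

theorem H0 : HH 0 0 = 1 := by simp [HH_zero]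
theorem H1 : HH 1 0 = 1 / 2 := by simp [HH_zero]
theorem H2 : HH 2 0 = 1 / 12 := by rw [HH_zero]; norm_num [Nat.factorial]
theorem H3 : HH 3 0 = 1 / 120 := by rw [HH_zero]; norm_num [Nat.factorial]
theorem H4 : HH 4 0 = 1 / 1680 := by rw [HH_zero]; norm_num [Nat.factorial]

theorem HH_cos (x : ℝ) : HH 0 (-x ^ 2) = cos x := by
  rw [← (Real.hasSum_cos x).tsum_eq]
  refine tsum_congr fun n => ?_
  rw [pp, FormalMultilinearSeries.ofScalars_apply_eq, smul_eq_mul, neg_pow, ← pow_mul,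
    div_eq_inv_mul]

theorem HH_cont : Continuous (HH 0) :=
  continuous_iff_continuousAt.2 fun u => (dH 0 u).continuousAt

theorem two_point {μ : Measure ℝ} [IsProbabilityMeasure μ] {c : ℝ} (hc : 0 ≤ c)
    (i1 : Integrable (fun x : ℝ => x) μ) (h1 : ∫ x, x ∂μ = 0) (h : ∀ᵐ x ∂μ, x ^ 2 = c) :
    μ = (2⁻¹ : ℝ≥0∞) • (Measure.dirac √c + Measure.dirac (-√c)) := by
  ext s hs
  set r := √c with hr
  set g : ℝ → ℝ := s.indicator 1 with hg
  have e : g =ᵐ[μ] fun x => (g r + g (-r)) / 2 + (g r - g (-r)) / (2 * r) * x := by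
    filter_upwards [h] with x hx
    rw [← sq_sqrt hc, sq_eq_sq_iff_eq_or_eq_neg, ← hr] at hx
    rcases eq_or_ne r 0 with h0 | h0
    · have : x = 0 := by rcases hx with hx | hx <;> simp [hx, h0]
      simp [this, h0]
    · rcases hx with rfl | rfl <;> field_simp <;> ring
  have k : μ.real s = (g r + g (-r)) / 2 := by
    rw [← integral_indicator_one hs, ← hg, integral_congr_ae e,
      integral_add (integrable_const _) (i1.const_mul _), integral_const_mul, h1]
    simp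
  rw [← ofReal_measureReal (measure_ne_top μ s), k, Measure.smul_apply, Measure.add_apply,
    Measure.dirac_apply' _ hs, Measure.dirac_apply' _ hs, hg]
  by_cases a : r ∈ s <;> by_cases b : -r ∈ s <;> simp [a, b, one_add_one_eq_two,
    ENNReal.inv_mul_cancel, ENNReal.ofReal_inv_of_pos]

theorem core4 {a c : ℝ} (hc : 0 ≤ c) (μ : Measure ℝ) [IsProbabilityMeasure μ]
    (hle : ∀ᶠ t in 𝓝 (0 : ℝ), ∫⁻ x, ENNReal.ofReal (exp (t * x)) ∂μ ≤
      ENNReal.ofReal (HH 0 (a * t + c * t ^ 2)))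
    (h1 : ∫ x, x ∂μ = a / 2) (h2 : ∫ x, x ^ 2 ∂μ = a ^ 2 / 12 + c) :
    μ = (2⁻¹ : ℝ≥0∞) • (Measure.dirac √c + Measure.dirac (-√c)) := by
  have hint := mem_interior hle
  have ip : ∀ n : ℕ, Integrable (fun x : ℝ => x ^ n) μ := fun n =>
    integrable_pow_of_mem_interior_integrableExpSet hint n
  have i1 : Integrable (fun x : ℝ => x) μ := by simpa using ip 1
  set m2 := ∫ x, x ^ 2 ∂μ with hm2
  set m4 := ∫ x, x ^ 4 ∂μ with hm4
  have h4 : m4 ≤ a ^ 4 / 1680 + c * a ^ 2 / 10 + c ^ 2 := by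
    set w : ℝ → ℝ := fun t => a * t + c * t ^ 2 with hw
    set w1 : ℝ → ℝ := fun t => a + 2 * c * t with hw1
    have dw : ∀ t, HasDerivAt w (w1 t) t := fun t => by
      have h := ((hasDerivAt_id t).const_mul a).add ((hasDerivAt_pow 2 t).const_mul c)
      refine h.congr_deriv ?_
      simp only [hw1]
      push_cast
      ring
    have dw1 : ∀ t, HasDerivAt w1 (2 * c) t := fun t => by
      have h := (hasDerivAt_const t a).add ((hasDerivAt_id t).const_mul (2 * c))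
      refine h.congr_deriv ?_
      ring
    have w0 : w 0 = 0 := by simp [hw]
    have w10 : w1 0 = a := by simp [hw1]
    set F0 : ℝ → ℝ := fun t => HH 0 (w t) with hF0
    set F1 : ℝ → ℝ := fun t => HH 1 (w t) * w1 t with hF1
    set F2 : ℝ → ℝ := fun t => HH 2 (w t) * w1 t ^ 2 + 2 * c * HH 1 (w t) with hF2
    set F3 : ℝ → ℝ := fun t => HH 3 (w t) * w1 t ^ 3 + 6 * c * (HH 2 (w t) * w1 t) with hF3
    set F4 : ℝ → ℝ := fun t =>
      HH 4 (w t) * w1 t ^ 4 + 12 * c * HH 3 (w t) * w1 t ^ 2 + 12 * c ^ 2 * HH 2 (w t) with hF4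
    have dF0 : ∀ t, HasDerivAt F0 (F1 t) t := fun t => (dH 0 _).comp t (dw t)
    have dF1 : ∀ t, HasDerivAt F1 (F2 t) t := fun t => by
      have h := ((dH 1 _).comp t (dw t)).mul (dw1 t)
      refine h.congr_deriv ?_
      simp only [hF2, Function.comp]
      ring
    have dF2 : ∀ t, HasDerivAt F2 (F3 t) t := fun t => by
      have h := (((dH 2 _).comp t (dw t)).mul ((dw1 t).pow 2)).add
        (((dH 1 _).comp t (dw t)).const_mul (2 * c))
      refine h.congr_deriv ?_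
      simp only [hF3, Function.comp, Pi.pow_apply]
      push_cast
      ring
    have dF3 : ∀ t, HasDerivAt F3 (F4 t) t := fun t => by
      have h := (((dH 3 _).comp t (dw t)).mul ((dw1 t).pow 3)).add
        ((((dH 2 _).comp t (dw t)).mul (dw1 t)).const_mul (6 * c))
      refine h.congr_deriv ?_
      simp only [hF4, Function.comp, Pi.pow_apply]
      push_cast
      ring
    have tneg : Tendsto (fun t : ℝ => -t) (𝓝 0) (𝓝 0) := by
      simpa using (continuous_neg.tendsto (0 : ℝ))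
    have key := fourth_nonneg
      (D0 := fun t => F0 t + F0 (-t) - (2 + m2 * t ^ 2 + m4 / 12 * t ^ 4))
      (D1 := fun t => F1 t - F1 (-t) - (2 * m2 * t + m4 / 3 * t ^ 3))
      (D2 := fun t => F2 t + F2 (-t) - (2 * m2 + m4 * t ^ 2))
      (D3 := fun t => F3 t - F3 (-t) - 2 * m4 * t)
      (d := 2 * F4 0 - 2 * m4) (Eventually.of_forall fun t => ?_)
      (Eventually.of_forall fun t => ?_) (Eventually.of_forall fun t => ?_) ?_ ?_ ?_ ?_ ?_ ?_
    · simp only [hF4, w0, w10, H2, H3, H4] at key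
      linarith
    · have h := ((dF0 t).add ((dF0 (-t)).comp t (hasDerivAt_neg t))).sub
        (((hasDerivAt_const t (2 : ℝ)).add ((hasDerivAt_pow 2 t).const_mul m2)).add
          ((hasDerivAt_pow 4 t).const_mul (m4 / 12)))
      refine h.congr_deriv ?_
      push_cast
      ring
    · have h := ((dF1 t).sub ((dF1 (-t)).comp t (hasDerivAt_neg t))).sub
        (((hasDerivAt_id t).const_mul (2 * m2)).add ((hasDerivAt_pow 3 t).const_mul (m4 / 3)))
      refine h.congr_deriv ?_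
      push_cast
      ring
    · have h := ((dF2 t).add ((dF2 (-t)).comp t (hasDerivAt_neg t))).sub
        ((hasDerivAt_const t (2 * m2)).add ((hasDerivAt_pow 2 t).const_mul m4))
      refine h.congr_deriv ?_
      push_cast
      ring
    · have h := ((dF3 0).sub ((dF3 (-0)).comp 0 (hasDerivAt_neg 0))).sub
        ((hasDerivAt_id (0 : ℝ)).const_mul (2 * m4))
      refine h.congr_deriv ?_
      rw [neg_zero]
      ring
    · simp only [neg_zero, hF0, w0, H0]
      ring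
    · simp
    · simp only [neg_zero, hF2, w0, w10, H1, H2]
      linear_combination (-2 : ℝ) * h2
    · simp
    · have hle' : ∀ᶠ t in 𝓝 (0 : ℝ), t ∈ integrableExpSet id μ ∧ mgf id μ t ≤ F0 t := by
        filter_upwards [hle, mem_interior_iff_mem_nhds.1 hint] with t ht hti
        refine ⟨hti, ?_⟩
        rw [lintegral_eq_mgf hti, ENNReal.ofReal_le_ofReal_iff'] at ht
        rcases ht with ht | ht
        · exact ht
        · exact absurd ht (not_le.2 (mgf_pos hti))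
      filter_upwards [hle', tneg.eventually hle'] with t ht ht'
      have e1 : 2 + m2 * t ^ 2 + m4 / 12 * t ^ 4 ≤ mgf id μ t + mgf id μ (-t) := by
        obtain ⟨e2, e3⟩ := int3 (ip 2) (ip 4) 2 (t ^ 2) (t ^ 4 / 12)
        have e4 : 2 + m2 * t ^ 2 + m4 / 12 * t ^ 4
            = ∫ x, (2 + t ^ 2 * x ^ 2 + t ^ 4 / 12 * x ^ 4) ∂μ := by
          rw [e3]; ring
        rw [e4]
        unfold mgf
        rw [← integral_add ht.1 ht'.1]
        refine integral_mono e2 (ht.1.add ht'.1) fun x => ?_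
        have := exp_add_exp_ge (t * x)
        simp only [id, neg_mul]
        nlinarith
      linarith [ht.2, ht'.2]
  obtain ⟨q1, q2⟩ := int3 (ip 2) (ip 4) (m2 ^ 2) (-2 * m2) 1
  have nn : ∀ x : ℝ, 0 ≤ m2 ^ 2 + -2 * m2 * x ^ 2 + 1 * x ^ 4 := fun x => by
    nlinarith [sq_nonneg (x ^ 2 - m2)]
  have q3 : 0 ≤ ∫ x, (m2 ^ 2 + -2 * m2 * x ^ 2 + 1 * x ^ 4) ∂μ := integral_nonneg nn
  have ha : a = 0 := by
    rw [q2, ← hm2, ← hm4, h2] at q3
    have k : a ^ 4 ≤ 0 := by nlinarith [mul_nonneg hc (sq_nonneg a)]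
    exact pow_eq_zero_iff (n := 4) (by norm_num) |>.1 (le_antisymm k (by positivity))
  have hm : m2 = c := by rw [h2, ha]; ring
  refine two_point hc i1 (by rw [h1, ha]; ring) ?_
  have q4 : ∫ x, (m2 ^ 2 + -2 * m2 * x ^ 2 + 1 * x ^ 4) ∂μ = 0 := by
    refine le_antisymm ?_ q3
    rw [q2, ← hm2, ← hm4, hm]
    rw [ha] at h4
    nlinarith
  filter_upwards [(integral_eq_zero_iff_of_nonneg nn q1).1 q4] with x hx
  have k : (x ^ 2 - c) ^ 2 = 0 := by
    simp only [Pi.zero_apply, hm] at hx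
    linear_combination hx
  exact sub_eq_zero.1 (pow_eq_zero_iff two_ne_zero |>.1 k)

/-- The transform of the law of the increments at `κ = 4`, on the left of zero. -/
def SSW4 (β : Measure ℝ) : Prop :=
  ∀ᶠ l in 𝓝[<] (0 : ℝ), ∫⁻ b, ENNReal.ofReal (exp (-(l * b))) ∂β =
    ENNReal.ofReal (cos (π * (1 - 4 / 4)) / cos (π * √((1 - 4 / 4) ^ 2 - 8 * l / 4)))

theorem beta4 {β : Measure ℝ} [IsProbabilityMeasure β] (hpos : ∀ᵐ b ∂β, 0 ≤ b) (hβ : SSW4 β) :
    (0 : ℝ) ∈ interior (integrableExpSet id β) ∧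
      (∀ᶠ l in 𝓝 (0 : ℝ), ∫⁻ b, ENNReal.ofReal (exp (-(l * b))) ∂β =
        ENNReal.ofReal (1 / HH 0 (2 * π ^ 2 * l))) ∧
      ∫ b, b ∂β = π ^ 2 ∧ ∫ b, b ^ 2 ∂β = 5 / 3 * π ^ 4 := by
  have tneg : Tendsto (fun t : ℝ => -t) (𝓝 0) (𝓝 0) := by
    simpa using (continuous_neg.tendsto (0 : ℝ))
  set w : ℝ → ℝ := fun t => -(2 * π ^ 2 * t) with hw
  have hβ' : ∀ᶠ t in 𝓝[>] (0 : ℝ), ∫⁻ b, ENNReal.ofReal (exp (t * b)) ∂β =
      ENNReal.ofReal (1 / HH 0 (w t)) := by
    have t1 : Tendsto (fun t : ℝ => -t) (𝓝[>] 0) (𝓝[<] 0) := by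
      simpa using tendsto_neg_nhdsGT (a := (0 : ℝ))
    filter_upwards [t1.eventually hβ, self_mem_nhdsWithin] with t ht h0
    have e : w t = -(π * √((1 - 4 / 4) ^ 2 - 8 * -t / 4)) ^ 2 := by
      have h0' : (0 : ℝ) < t := h0
      rw [mul_pow, sq_sqrt (by linarith)]
      ring
    rw [e, HH_cos]
    simpa using ht
  have hint : (0 : ℝ) ∈ interior (integrableExpSet id β) := by
    refine mem_interior (f := fun t => max 1 (1 / HH 0 (w t))) ?_
    rw [← nhdsLE_sup_nhdsGT, eventually_sup]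
    refine ⟨?_, hβ'.mono fun t ht => ht.le.trans (ENNReal.ofReal_le_ofReal (le_max_right _ _))⟩
    filter_upwards [self_mem_nhdsWithin] with t ht
    calc _ ≤ ∫⁻ _, ENNReal.ofReal 1 ∂β := lintegral_mono_ae (hpos.mono fun b hb =>
          ENNReal.ofReal_le_ofReal (exp_le_one_iff.2 (mul_nonpos_of_nonpos_of_nonneg ht hb)))
      _ ≤ _ := by simp
  have dw : ∀ t, HasDerivAt w (-(2 * π ^ 2)) t := fun t =>
    (((hasDerivAt_id t).const_mul (2 * π ^ 2)).neg).congr_deriv (by ring)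
  have w0 : w 0 = 0 := by simp [hw]
  have gpos : ∀ᶠ t in 𝓝 (0 : ℝ), 0 < HH 0 (w t) :=
    ((dH 0 _).comp 0 (dw 0)).continuousAt.eventually
      (lt_mem_nhds (show 0 < HH 0 (w 0) by rw [w0, H0]; exact one_pos))
  have hI : ∀ᶠ t in 𝓝 (0 : ℝ), t ∈ interior (integrableExpSet id β) :=
    isOpen_interior.eventually_mem hint
  have e0 : ∀ᶠ t in 𝓝 (0 : ℝ), mgf id β t = 1 / HH 0 (w t) := by
    have a1 : AnalyticAt ℝ (fun t => 1 / HH 0 (w t)) 0 :=
      analyticAt_const.div ((HH_an 0 _).comp (by simp only [hw]; fun_prop))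
        gpos.self_of_nhds.ne'
    refine ((analyticAt_mgf hint).frequently_eq_iff_eventually_eq a1).1
      (Frequently.filter_mono (Eventually.frequently ?_) (nhdsGT_le_nhdsNE 0))
    filter_upwards [hβ', gpos.filter_mono nhdsWithin_le_nhds, hI.filter_mono nhdsWithin_le_nhds]
      with t ht hg hi
    rwa [lintegral_eq_mgf (interior_subset hi),
      ENNReal.ofReal_eq_ofReal_iff mgf_nonneg (by positivity)] at ht
  have e1 : ∀ᶠ t in 𝓝 (0 : ℝ), ∫ b, b ^ 1 * exp (t * b) ∂β =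
      2 * π ^ 2 * (HH 1 (w t) / HH 0 (w t) ^ 2) := by
    filter_upwards [e0.eventually_nhds, gpos, hI] with t ht hg hi
    have a1 := hasDerivAt_mgf hi
    have a2 := (hasDerivAt_const t (1 : ℝ)).div ((dH 0 _).comp t (dw t)) hg.ne'
    have a3 := a1.unique (a2.congr_of_eventuallyEq ht)
    simp only [id, Function.comp] at a3
    simp only [pow_one]
    rw [a3]
    field_simp
    ring
  refine ⟨hint, ?_, ?_, ?_⟩
  · filter_upwards [tneg.eventually e0, tneg.eventually hI] with l h₁ h₂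
    have := lintegral_eq_mgf (interior_subset h₂)
    rw [h₁] at this
    simpa [hw] using this
  · have := e1.self_of_nhds
    simp only [pow_one, zero_mul, exp_zero, mul_one, w0, H0, H1] at this
    rw [this]
    ring
  · have a1 := hasDerivAt_integral_pow_mul_exp_real hint 1
    have a2 := (((dH 1 _).comp 0 (dw 0)).div (((dH 0 _).comp 0 (dw 0)).pow 2)
      (pow_pos gpos.self_of_nhds 2).ne').const_mul (2 * π ^ 2)
    have a3 := a1.unique (a2.congr_of_eventuallyEq e1)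
    simp only [id, Function.comp, Pi.pow_apply, w0, zero_add, Nat.reduceAdd, H0, H1, H2, zero_mul,
      exp_zero, mul_one] at a3
    rw [a3]
    norm_num
    ring

theorem endgame4 {β μ : Measure ℝ} [IsProbabilityMeasure β] [IsProbabilityMeasure μ]
    (hpos : ∀ᵐ b ∂β, 0 ≤ b) (hβ : SSW4 β)
    (hμ : ∀ t l : ℝ, (∫ x, x ∂μ) * t / (∫ b, b ∂β) +
          (Var[id; μ] + (∫ x, x ∂μ) ^ 2 * Var[id; β] / (∫ b, b ∂β) ^ 2) / (∫ b, b ∂β)
            * t ^ 2 / 2 < l →
        (∫⁻ x, ENNReal.ofReal (exp (t * x)) ∂μ) *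
          (∫⁻ b, ENNReal.ofReal (exp (-(l * b))) ∂β) ≤ 1) :
    ∃ c : ℝ, 0 ≤ c ∧ μ = (2⁻¹ : ℝ≥0∞) • (Measure.dirac c + Measure.dirac (-c)) := by
  obtain ⟨hint, hβ, b1, b2⟩ := beta4 hpos hβ
  have hvβ : Var[id; β] = ∫ b, b ^ 2 ∂β - (∫ b, b ∂β) ^ 2 :=
    variance_eq_sub (by simpa using memLp_of_mem_interior_integrableExpSet hint 2)
  rw [b1, hvβ, b1, b2] at hμ
  have hπ := pi_pos
  set m := ∫ x, x ∂μ with hm
  set c := Var[id; μ] + m ^ 2 * (5 / 3 * π ^ 4 - (π ^ 2) ^ 2) / (π ^ 2) ^ 2 with hc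
  have ec : c = Var[id; μ] + 2 / 3 * m ^ 2 := by rw [hc]; field_simp; ring
  set L : ℝ → ℝ := fun t => m * t / π ^ 2 + c / π ^ 2 * t ^ 2 / 2 with hLd
  have cL : Continuous L := by fun_prop
  have L0 : L 0 = 0 := by simp [hLd]
  have cw : Continuous fun l : ℝ => HH 0 (2 * π ^ 2 * l) := HH_cont.comp (by fun_prop)
  have gpos : ∀ᶠ l in 𝓝 (0 : ℝ), 0 < HH 0 (2 * π ^ 2 * l) :=
    cw.continuousAt.eventually (lt_mem_nhds (by simp [H0]))
  have hle : ∀ᶠ t in 𝓝 (0 : ℝ), ∫⁻ x, ENNReal.ofReal (exp (t * x)) ∂μ ≤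
      ENNReal.ofReal (HH 0 (2 * m * t + c * t ^ 2)) := by
    have t3 : Tendsto L (𝓝 0) (𝓝 0) := by simpa [L0] using cL.tendsto 0
    filter_upwards [t3.eventually (hβ.and gpos).eventually_nhds] with t ht
    have t5 : Tendsto (fun l => ENNReal.ofReal (HH 0 (2 * π ^ 2 * l))) (𝓝[>] (L t))
        (𝓝 (ENNReal.ofReal (HH 0 (2 * π ^ 2 * L t)))) :=
      ((ENNReal.continuous_ofReal.comp cw).tendsto _).mono_left nhdsWithin_le_nhds
    have e : 2 * m * t + c * t ^ 2 = 2 * π ^ 2 * L t := by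
      simp only [hLd]; field_simp
    rw [e]
    refine ge_of_tendsto t5 ?_
    filter_upwards [ht.filter_mono nhdsWithin_le_nhds, self_mem_nhdsWithin] with l hl hl'
    obtain ⟨a2, a3⟩ := hl
    have a4 := hμ t l hl'
    rw [a2] at a4
    have a5 : ENNReal.ofReal (1 / HH 0 (2 * π ^ 2 * l)) *
        ENNReal.ofReal (HH 0 (2 * π ^ 2 * l)) = 1 := by
      rw [← ENNReal.ofReal_mul (by positivity), one_div_mul_cancel a3.ne', ENNReal.ofReal_one]
    calc _ = _ * (ENNReal.ofReal (1 / HH 0 (2 * π ^ 2 * l)) *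
          ENNReal.ofReal (HH 0 (2 * π ^ 2 * l))) := by rw [a5, mul_one]
      _ ≤ 1 * ENNReal.ofReal (HH 0 (2 * π ^ 2 * l)) := by
          rw [← mul_assoc]; gcongr
      _ = _ := one_mul _
  have hvμ : Var[id; μ] = ∫ b, b ^ 2 ∂μ - m ^ 2 :=
    variance_eq_sub (by simpa using memLp_of_mem_interior_integrableExpSet (mem_interior hle) 2)
  have c0 : 0 ≤ c := by
    have := variance_nonneg id μ
    rw [ec]; positivity
  exact ⟨√c, sqrt_nonneg c, core4 c0 μ hle (by ring) (by rw [ec, hvμ]; ring)⟩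

theorem two_of_coupling {Ω : Type*} [MeasurableSpace Ω] {P : Measure Ω} {β μ : Measure ℝ}
    [IsProbabilityMeasure β] [IsProbabilityMeasure μ] {B ξ X : ℕ → Ω → ℝ}
    (hB : ∀ i, Measurable (B i)) (hξ : ∀ i, Measurable (ξ i))
    (hind : iIndepFun (fun i ω => (B i ω, ξ i ω)) P)
    (hlaw : ∀ i, P.map (fun ω => (B i ω, ξ i ω)) = β.prod μ)
    (hpos : ∀ᵐ b ∂β, 0 ≤ b) (hβ : SSW4 β)
    (hμ : MemLp id 2 μ) (hX : ∀ k, HasGaussianLaw (X k) P)
    (G : ℕ → MeasurableSpace Ω)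
    (hG : ∀ n, ∀ i < n, Measurable[G n] (B i) ∧ Measurable[G n] (ξ i)) (c0 : ℝ)
    (hc : ∀ A η : ℝ, 0 < η → ∃ C : ℝ, ∀ n k : ℕ, 1 ≤ n → c0 ≤ k → ∀ D : Set Ω,
      MeasurableSet[G n] D → (∀ ω ∈ D, k - A ≤ psum B n ω ∧ psum B n ω ≤ k - c0) →
        P (D ∩ {ω | C < |X k ω - psum ξ n ω + (∫ x, x ∂μ) * k / (∫ b, b ∂β)|}) ≤
          ENNReal.ofReal η * P D) :
    ∃ c : ℝ, 0 ≤ c ∧ μ = (2⁻¹ : ℝ≥0∞) • (Measure.dirac c + Measure.dirac (-c)) := by
  obtain ⟨h1, -, h2, -⟩ := beta4 hpos hβ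
  have hS : Setup P β μ B ξ (fun k => (hX k).aemeasurable.mk _) G c0 :=
    { mB := hB
      mξ := hξ
      mX := fun k => (hX k).aemeasurable.measurable_mk
      indep := hind
      law := hlaw
      nonneg := hpos
      expm := h1
      mean := by rw [h2]; exact pow_pos pi_pos 2
      mom := hμ
      gauss := fun k => (hX k).congr (hX k).aemeasurable.ae_eq_mk
      adapted := hG
      coupling := fun A η hη => by
        obtain ⟨C, hC⟩ := hc A η hη
        refine ⟨C, fun n k hn hk D hD hD' => le_trans (measure_mono_ae ?_) (hC n k hn hk D hD hD')⟩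
        filter_upwards [(hX k).aemeasurable.ae_eq_mk] with ω hω hm
        refine ⟨hm.1, ?_⟩
        have := hm.2
        simp only [mem_ofPred_eq] at this ⊢
        rwa [hω] }
  exact endgame4 hpos hβ fun t l hp => hS.mgf_bound hp

end Pool.Agent.MP_ac6554_pr.Four
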