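import Pool.Agent.Mg.Fac6554.G76a266
import Pool.Agent.MP_ac6554_pr.Four.End

set_option autoImplicit false

namespace Pool.Agent.MP_ac6554_pr.Four

section

open Filter Topology Set Real MeasureTheory
open scoped NNReal ENNReal

theorem laplace4 {Ω : Type*} {m0 : MeasurableSpace Ω} {P : Measure Ω} [IsProbabilityMeasure P]
    {ℱ : Filtration ℝ≥0 m0} {x : ℝ≥0 → Ω → ℝ} {κ : ℝ} (h1 : 8 / 3 < κ) (h2 : κ < 8)
    (hc : ∀ ω, Continuous fun t => x t ω) (hx : ∀ t, Measurable[ℱ t] (x t))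
    (hb : ∀ t ω, |x t ω| ≤ 1) (h0 : ∀ ω, x 0 ω = 1)
    (hm : ∀ f : ℝ → ℝ, ContDiff ℝ 2 f → Martingale (fun (t : ℝ≥0) ω => f (x t ω)
        - ∫ s in (0 : ℝ)..t, gen κ f (x s.toNNReal ω)) ℱ P) :
    Measurable (fun ω => sInf {t | x t ω ≤ -1}) ∧ (∀ᵐ ω ∂P, ∃ t, x t ω ≤ -1) ∧
      ∀ᶠ l in 𝓝[<] (0 : ℝ), ∫⁻ ω, ENNReal.ofReal (exp (-(l * (sInf {t | x t ω ≤ -1} : ℝ≥0)))) ∂P
        = ENNReal.ofReal (cos (π * (1 - 4 / κ)) / cos (π * √((1 - 4 / κ) ^ 2 - 8 * l / κ))) := by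
  have hx' : ∀ t, Measurable (x t) := fun t => (hx t).mono (ℱ.le t) le_rfl
  have hopt : ∀ (a : ℝ) (f : ℝ → ℝ), ContDiff ℝ 2 f → ∀ t, Measurable (Lap.dyn κ x a f t) ∧
      ∫ ω, Lap.dyn κ x a f t ω ∂P = f 1 := by
    intro a f hf t
    have hg := Lap.continuous_gen κ hf
    obtain ⟨B1, hB1⟩ := (isCompact_Icc (a := (-1 : ℝ)) (b := 1)).exists_bound_of_continuousOn
      hf.continuous.continuousOn
    obtain ⟨B2, hB2⟩ := (isCompact_Icc (a := (-1 : ℝ)) (b := 1)).exists_bound_of_continuousOn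
      hg.continuousOn
    have := Lap.optional_stop hc hx (hm f hf) (fun ω => ?_) a t (B := B1 + B2 * t)
      fun s hs ω => ?_
    · refine ⟨this.1, this.2.trans ?_⟩
      simp [h0]
    · have hX : Continuous fun s : ℝ => gen κ f (x s.toNNReal ω) :=
        hg.comp ((hc ω).comp continuous_real_toNNReal)
      exact (hf.continuous.comp (hc ω)).sub
        ((intervalIntegral.continuous_primitive (fun _ _ => hX.intervalIntegrable _ _) 0).comp
          NNReal.continuous_coe)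
    · refine (abs_sub _ _).trans (add_le_add (hB1 _ (abs_le.1 (hb _ _))) ?_)
      refine (intervalIntegral.norm_integral_le_of_norm_le_const (C := B2)
        fun r _ => hB2 _ (abs_le.1 (hb _ _))).trans ?_
      have h0 : 0 ≤ B2 := (norm_nonneg _).trans (hB2 0 (by simp))
      have h1 : (s : ℝ) ≤ t := hs
      rw [sub_zero, abs_of_nonneg (NNReal.coe_nonneg _)]
      gcongr
  have key := Lap.laplace_dyn (P := P) h1 h2 hc hx' hb h0
    (fun a _ f hf t => (hopt a f hf t).1) (fun a _ f hf t => (hopt a f hf t).2)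
  refine ⟨Lap.measurable_hitT hc hx' _, key.1, ?_⟩
  have hν := abs_lt.1 (Lap.nu_bound h1 h2)
  have hκ : 0 < κ := by linarith
  have hq' : (1 - 4 / κ) ^ 2 - 1 / 4 < 0 := by nlinarith
  have hcont : Tendsto (fun l : ℝ => 8 * l / κ) (𝓝 0) (𝓝 0) := by
    have : Continuous fun l : ℝ => 8 * l / κ := by fun_prop
    simpa using this.tendsto 0
  filter_upwards [self_mem_nhdsWithin,
    (hcont.eventually (lt_mem_nhds hq')).filter_mono nhdsWithin_le_nhds] with l hl hl'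
  have hl0 : l < 0 := hl
  obtain ⟨hI, hE⟩ := key.2 l
    ((div_nonpos_of_nonpos_of_nonneg (by linarith) hκ.le).trans (sq_nonneg _)) (by linarith)
  rw [← hE, ofReal_integral_eq_lintegral_ofReal hI (Eventually.of_forall fun ω => (exp_pos _).le)]

theorem laplace_sle4 {κ : ℝ} (h1 : 8 / 3 < κ) (h2 : κ < 8) {Ω : Type}
    {m : MeasurableSpace Ω} {Q : Measure Ω} {𝓕 : Filtration ℝ≥0 m} {θ : ℝ → Ω → ℝ}
    {W : ℝ → Ω → ℂ} (h : IsSLE κ Q 𝓕 θ W) :
    Measurable (fun ω => hit fun t => θ t ω) ∧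
      (∀ᵐ ω ∂Q, ∃ t, 0 ≤ t ∧ Real.cos (θ t ω / 2) = -1) ∧
      ∀ᶠ l in 𝓝[<] (0 : ℝ), ∫⁻ ω, ENNReal.ofReal (Real.exp (-(l * hit fun t => θ t ω))) ∂Q
        = ENNReal.ofReal (Real.cos (Real.pi * (1 - 4 / κ)) /
            Real.cos (Real.pi * √((1 - 4 / κ) ^ 2 - 8 * l / κ))) := by
  have := h.prob
  have key := laplace4 (P := Q) (ℱ := 𝓕) (x := fun t ω => Real.cos (θ t ω / 2)) h1 h2
    (fun ω => by have := (h.cont ω).1; fun_prop)
    (fun t => Real.measurable_cos.comp ((h.adapted t).div_const 2))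
    (fun t ω => Real.abs_cos_le_one _) (fun ω => by simp [h.start])
    (fun f hf => by
      convert h.mart f hf using 4 with t ω
      refine intervalIntegral.integral_congr fun s hs => ?_
      rw [uIcc_of_le (NNReal.coe_nonneg t)] at hs
      simp only [Real.coe_toNNReal s hs.1])
  simp only [hit_eq]
  refine ⟨key.1.coe_nnreal_real, ?_, key.2.2⟩
  filter_upwards [key.2.1] with ω ⟨t, ht⟩
  exact ⟨t, t.2, le_antisymm ht (Real.neg_one_le_cos _)⟩

end

open MeasureTheory ProbabilityTheory TopologicalSpace Metric Set Filter Topology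
open scoped NNReal ENNReal
open ChainAux MeanAux CoupleAux

variable {κ : ℝ} {Ω : Type} [MeasurableSpace Ω] {P : Measure Ω} {V : ℕ → Ω → Opens ℂ}
  {i : ℕ → Ω → ℕ} {f : ℕ → Ω → ℂ → ℂ} {e : ℕ → ℕ → Ω → ℕ}

theorem ssw4 [IsProbabilityMeasure P] (h : Sk 4 P V i f e) : SSW4 (P.map (Bb f 0)) := by
  obtain ⟨Ω', m, Q, 𝓕, θ, W, hS, hI⟩ := h.sle
  obtain ⟨cr, hm, -, -, hc⟩ := exists_cr
  obtain ⟨hτ, -, hL⟩ := laplace_sle4 (by norm_num) (by norm_num) hS
  have hΨ : Measurable fun U : Opens ℂ => -Real.log (cr U).toReal :=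
    (Real.measurable_log.comp hm.ennreal_toReal).neg
  have key : ∀ (U : Opens ℂ) (j : ℂ → ℂ), Conf j U → j 0 = 0 → (cr U).toReal = ‖deriv j 0‖ :=
    fun U j hj h0 => by rw [hc U j (by rwa [comp0_eq hj h0]) h0, toReal_enorm]
  have e1 : Bb f 0 = (fun U : Opens ℂ => -Real.log (cr U).toReal) ∘
      fun ω => comp0 (V (i 0 ω) ω) := by
    funext ω
    simp only [Function.comp, key _ _ (h.fconf ω 0) (h.f0 ω 0)]
    rfl
  have e2 : (fun ω => hit fun t => θ t ω) = (fun U : Opens ℂ => -Real.log (cr U).toReal) ∘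
      fun ω => loewner (fun t => W t ω) (hit fun t => θ t ω) := by
    funext ω
    obtain ⟨j, hj, hj0, hd⟩ := loewner_conf (fun t => W t ω) (hS.cont ω).2
      (fun t => hS.circle t ω) (t := hit fun t => θ t ω) (Real.sInf_nonneg fun t ht => ht.1)
    simp only [Function.comp, key _ _ hj hj0, hd, Real.log_exp, neg_neg]
  have e3 : P.map (Bb f 0) = Q.map fun ω => hit fun t => θ t ω := by
    rw [e1, (hI.comp hΨ).map_eq, ← e2]
  rw [e3]
  filter_upwards [hL] with l hl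
  rw [lintegral_map (by fun_prop) hτ, hl]

theorem walk4 [IsProbabilityMeasure P] (h : Sk 4 P V i f e) :
    Walk P (P.map (Bb f 0)) (Bb f) := by
  have hp : IsProbabilityMeasure (P.map (Bb f 0)) :=
    Measure.isProbabilityMeasure_map (h.measurable_Bb 0).aemeasurable
  have h0 : ∀ᵐ b ∂(P.map (Bb f 0)), 0 ≤ b := by
    rw [ae_map_iff (h.measurable_Bb 0).aemeasurable measurableSet_Ici]
    exact ae_of_all _ fun ω => h.Bb_nonneg 0 ω
  obtain ⟨b1, -, b2, -⟩ := beta4 h0 (ssw4 h)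
  exact ⟨h.measurable_Bb, h.indep_B.1, h.indep_B.2, h0, b1, b2 ▸ pow_pos Real.pi_pos 2⟩

theorem count4 [IsProbabilityMeasure P] (h : Sk κ P V i f e)
    (hw : Walk P (P.map (Bb f 0)) (Bb f))
    {F : ℂ → ℂ} (hF : Univ F) :
    ∃ C : ℝ, ∀ ζ ∈ closedBall (0 : ℂ) (1 / 2), ∀ δ : ℝ, 0 < δ → δ ≤ 1 →
      ∑' k, P (ev F V (F ζ) δ k) ≠ ∞ ∧
      |(∑' k, P (ev F V (F ζ) δ k)).toReal - Real.log (1 / δ) / ∫ b, b ∂(P.map (Bb f 0))| ≤ C := by
  obtain ⟨K, hK⟩ := hw.count_abs_le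
  obtain ⟨c, hc⟩ := lower h
  obtain ⟨M, hM⟩ := deriv_bounds hF
  have hE := hw.mean
  set E := ∫ b, b ∂(P.map (Bb f 0))
  refine ⟨K + (|c| + M + Real.log 2) / E, fun ζ hζ δ hδ hδ1 => ?_⟩
  obtain ⟨G, hG, g1, g2, hL⟩ := transfer h hF hζ
  obtain ⟨m0, m1⟩ := hM ζ hζ
  rw [← lint_cnt h hF, hL]
  have hup := upper h hG hδ
  have hlo := hc hG hδ
  obtain ⟨u1, u2⟩ := hK (Real.log ‖deriv G 0‖ + Real.log (1 / δ))
  obtain ⟨l1, l2⟩ := hK (c + Real.log ‖deriv G 0‖ + Real.log (1 / δ))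
  have hfin := ne_top_of_le_ne_top u1 hup
  refine ⟨hfin, ?_⟩
  have hup' := ENNReal.toReal_mono u1 hup
  have hlo' := ENNReal.toReal_mono hfin hlo
  have ht : 0 ≤ Real.log (1 / δ) := Real.log_nonneg (by rw [le_div_iff₀ hδ]; linarith)
  have lg1 := Real.log_le_log (by positivity) g1
  have lg2 := Real.log_le_log (lt_of_lt_of_le (by positivity) g1) g2
  rw [Real.log_div m0.ne' two_ne_zero] at lg1
  rw [Real.log_mul two_ne_zero m0.ne'] at lg2
  have l2' : 0 ≤ Real.log 2 := Real.log_nonneg one_le_two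
  obtain ⟨m2, m3⟩ := abs_le.1 m1
  have c1 := le_abs_self c
  have c2 := neg_abs_le c
  have c3 := abs_nonneg c
  have x1 : max (Real.log ‖deriv G 0‖ + Real.log (1 / δ)) 0 / E ≤
      Real.log (1 / δ) / E + (|c| + M + Real.log 2) / E := by
    rw [← add_div]
    exact div_le_div_of_nonneg_right (max_le (by linarith) (by linarith)) hE.le
  have x2 : Real.log (1 / δ) / E - (|c| + M + Real.log 2) / E ≤
      max (c + Real.log ‖deriv G 0‖ + Real.log (1 / δ)) 0 / E := by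
    rw [← sub_div]
    exact div_le_div_of_nonneg_right (le_max_of_le_left (by linarith)) hE.le
  obtain ⟨u3, u4⟩ := abs_le.1 u2
  obtain ⟨l3, l4⟩ := abs_le.1 l2
  exact abs_le.2 ⟨by linarith, by linarith⟩

theorem mean_bound4 [IsProbabilityMeasure P] (h : Sk κ P V i f e)
    (hw : Walk P (P.map (Bb f 0)) (Bb f))
    {F : ℂ → ℂ} (hF : Univ F) (μ : Measure ℝ) [IsProbabilityMeasure μ]
    (hμ : MemLp id 2 μ) : ∃ C₀ : ℝ, ∀ ζ ∈ closedBall (0 : ℂ) (1 / 2), ∀ δ : ℝ, 0 < δ → δ ≤ 1 →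
      |∫ q, nestSum F (fun k => V k q.1) q.2 (F ζ) δ ∂(PP P μ) -
        (∫ x, x ∂μ) / (∫ b, b ∂(P.map (Bb f 0))) * Real.log (1 / δ)| ≤ C₀ := by
  obtain ⟨C, hC⟩ := count4 h hw hF
  refine ⟨C * |∫ x, x ∂μ|, fun ζ hζ δ hδ hδ1 => ?_⟩
  obtain ⟨a1, a2⟩ := hC ζ hζ δ hδ hδ1
  rw [int_nest h hF μ hμ _ _ a1]
  calc _ = |((∑' k, P (ev F V (F ζ) δ k)).toReal -
        Real.log (1 / δ) / ∫ b, b ∂(P.map (Bb f 0))) * ∫ x, x ∂μ| := by congr 1; ring
    _ ≤ _ := by rw [abs_mul]; exact mul_le_mul_of_nonneg_right a2 (abs_nonneg _)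

theorem err_bound4 [IsProbabilityMeasure P] (h : Sk κ P V i f e)
    (hw : Walk P (P.map (Bb f 0)) (Bb f))
    {F : ℂ → ℂ} (hF : Univ F) (μ : Measure ℝ) [IsProbabilityMeasure μ]
    (hμ : MemLp id 2 μ) {c C : ℝ} (hc : 0 < c) (hcC : c ≤ C) :
    ∃ C₄ : ℝ≥0, ∀ ζ ∈ closedBall (0 : ℂ) (1 / 2), ∀ δ : ℝ, 0 < δ → C * δ ≤ 1 →
      ∫⁻ q, err F (fun k => V k q.1) q.2 (F ζ) (c * δ) (C * δ) ∂(PP P μ) ≤ C₄ := by
  obtain ⟨K, hK⟩ := count4 h hw hF
  have hA : ∫⁻ x, ‖x‖ₑ ∂μ ≠ ∞ := (hμ.integrable one_le_two).2.ne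
  set E := ∫ b, b ∂(P.map (Bb f 0))
  refine ⟨(ENNReal.ofReal (2 * K + (Real.log C - Real.log c) / E) * ∫⁻ x, ‖x‖ₑ ∂μ).toNNReal,
    fun ζ hζ δ hδ hδ1 => ?_⟩
  rw [ENNReal.coe_toNNReal (ENNReal.mul_ne_top ENNReal.ofReal_ne_top hA), lint_err h hF]
  refine mul_le_mul_left ?_ _
  have hC : 0 < C := lt_of_lt_of_le hc hcC
  have hle : c * δ ≤ C * δ := mul_le_mul_of_nonneg_right hcC hδ.le
  obtain ⟨a1, a2⟩ := hK ζ hζ (c * δ) (by positivity) (hle.trans hδ1)
  obtain ⟨b1, b2⟩ := hK ζ hζ (C * δ) (by positivity) hδ1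
  have hsum : ∑' k, P (ev F V (F ζ) (c * δ) k \ ev F V (F ζ) (C * δ) k) +
      ∑' k, P (ev F V (F ζ) (C * δ) k) = ∑' k, P (ev F V (F ζ) (c * δ) k) := by
    rw [← ENNReal.tsum_add]
    refine tsum_congr fun k => ?_
    have hsub : ev F V (F ζ) (C * δ) k ⊆ ev F V (F ζ) (c * δ) k := fun ω hω =>
      (ball_subset_ball hle).trans hω
    rw [← measure_sdiff_add_inter (ev F V (F ζ) (c * δ) k) (measurableSet_ev h hF (F ζ) (C * δ) k),
      inter_eq_right.2 hsub]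
  have hfin : ∑' k, P (ev F V (F ζ) (c * δ) k \ ev F V (F ζ) (C * δ) k) ≠ ∞ :=
    ne_top_of_le_ne_top a1 (hsum ▸ le_self_add)
  have hsum' := congrArg ENNReal.toReal hsum
  rw [ENNReal.toReal_add hfin b1] at hsum'
  rw [← ENNReal.ofReal_toReal hfin]
  refine ENNReal.ofReal_le_ofReal ?_
  have e1 : Real.log (1 / (c * δ)) / E - Real.log (1 / (C * δ)) / E =
      (Real.log C - Real.log c) / E := by
    rw [← sub_div, one_div, one_div, Real.log_inv, Real.log_inv, Real.log_mul hc.ne' hδ.ne',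
      Real.log_mul hC.ne' hδ.ne']
    ring
  obtain ⟨a3, a4⟩ := abs_le.1 a2
  obtain ⟨b3, b4⟩ := abs_le.1 b2
  linarith

attribute [local irreducible] nestSum err

theorem err_tight4 [IsProbabilityMeasure P] (h : Sk κ P V i f e)
    (hw : Walk P (P.map (Bb f 0)) (Bb f))
    {F : ℂ → ℂ} (hF : Univ F) (μ : Measure ℝ) [IsProbabilityMeasure μ]
    (hμ : MemLp id 2 μ) {c C : ℝ} (hc : 0 < c) (hcC : c ≤ C) {η : ℝ} (hη : 0 < η) :
    ∃ C₃ : ℝ, 0 ≤ C₃ ∧ PP P μ {q | ∃ L, ∀ l, L ≤ l → ENNReal.ofReal C₃ <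
      Err F (c * rad l) (C * rad l) (fun k => V k q.1, q.2)} ≤ ENNReal.ofReal η := by
  obtain ⟨C₄, hC₄⟩ := err_bound4 h hw hF μ hμ hc hcC
  have hCpos : 0 < C := hc.trans_le hcC
  set K : ℝ≥0∞ := C₄ * volume (ball (0 : ℂ) (1 / 4)) with hK
  have Kt : K ≠ ⊤ := ENNReal.mul_ne_top ENNReal.coe_ne_top measure_ball_lt_top.ne
  have key : ∀ δ, 0 < δ → C * δ ≤ 1 →
      ∫⁻ q, Err F (c * δ) (C * δ) (fun k => V k q.1, q.2) ∂(PP P μ) ≤ K := by
    intro δ hδ hδ1
    unfold Err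
    have m : Measurable fun q : (Ω × (ℕ → ℝ)) × ℂ =>
        err F (fun k => V k q.1.1) q.1.2 (ind F q.2) (c * δ) (C * δ) :=
      Measurable.comp (g := fun q : (Ens × (ℕ → ℝ)) × ℂ =>
          err F q.1.1 q.1.2 (ind F q.2) (c * δ) (C * δ))
        (f := fun q : (Ω × (ℕ → ℝ)) × ℂ => (((fun k => V k q.1.1 : Ens), q.1.2), q.2))
        (measurable_errInd hF (c * δ) (C * δ))
        (((measurable_lab h).comp measurable_fst).prodMk measurable_snd)
    rw [lintegral_lintegral_swap (f := fun (q : Ω × (ℕ → ℝ)) (ζ : ℂ) =>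
      err F (fun k => V k q.1) q.2 (ind F ζ) (c * δ) (C * δ)) m.aemeasurable, hK,
      ← setLIntegral_const]
    refine setLIntegral_mono' measurableSet_ball fun ζ hζ => ?_
    rw [ind_eq (ball_subset_ball (by norm_num) hζ)]
    exact hC₄ ζ (ball_subset_closedBall (ball_subset_ball (by norm_num) hζ)) δ hδ hδ1
  refine ⟨K.toReal / η + 1, by positivity, ?_⟩
  set C₃ := K.toReal / η + 1 with hC₃
  have C3pos : 0 < C₃ := by positivity
  obtain ⟨L₀, hL₀⟩ := eventually_atTop.mp (ev_rad_le (δ := 1 / C) (by positivity))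
  have hU : {q : Ω × (ℕ → ℝ) | ∃ L, ∀ l, L ≤ l → ENNReal.ofReal C₃ <
      Err F (c * rad l) (C * rad l) (fun k => V k q.1, q.2)} = ⋃ L, {q | ∀ l, L ≤ l →
      ENNReal.ofReal C₃ < Err F (c * rad l) (C * rad l) (fun k => V k q.1, q.2)} := by
    ext q; simp
  have hmono : Monotone fun L : ℕ => {q : Ω × (ℕ → ℝ) | ∀ l, L ≤ l →
      ENNReal.ofReal C₃ < Err F (c * rad l) (C * rad l) (fun k => V k q.1, q.2)} :=
    fun a b hab q hq l hl => hq l (hab.trans hl)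
  rw [hU, hmono.measure_iUnion]
  refine iSup_le fun L => ?_
  set l := max L L₀
  have hl : C * rad l ≤ 1 := by
    have := hL₀ l (le_max_right _ _)
    rwa [le_div_iff₀' hCpos] at this
  have m := (measurable_Err hF (c * rad l) (C * rad l)).comp (measurable_lab h)
  have mk := mul_meas_ge_le_lintegral₀ (μ := PP P μ) m.aemeasurable (ENNReal.ofReal C₃)
  have h3 : ENNReal.ofReal C₃ * PP P μ {q | ∀ l, L ≤ l →
      ENNReal.ofReal C₃ < Err F (c * rad l) (C * rad l) (fun k => V k q.1, q.2)} ≤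
      ENNReal.ofReal C₃ * ENNReal.ofReal η := by
    refine (mul_le_mul_right (measure_mono fun q hq => (hq l (le_max_left _ _)).le) _).trans
      (mk.trans ((key _ (rad_pos l) hl).trans ?_))
    rw [← ENNReal.ofReal_mul C3pos.le, ← ENNReal.ofReal_toReal Kt]
    refine ENNReal.ofReal_le_ofReal ?_
    rw [hC₃, add_mul, div_mul_cancel₀ _ hη.ne']
    linarith
  exact (ENNReal.mul_le_mul_iff_right (by simpa using C3pos) ENNReal.ofReal_ne_top).mp h3

theorem couple4 [IsProbabilityMeasure P] (h : Sk κ P V i f e)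
    (hw : Walk P (P.map (Bb f 0)) (Bb f))
    {D : Opens ℂ} {F : ℂ → ℂ} (hF : Conf F D) (μ : Measure ℝ)
    [IsProbabilityMeasure μ] (hμ : MemLp id 2 μ) (H : Ω × (ℕ → ℝ) → Distribution D ℝ ⊤)
    (hlim : ∀ φ : TestFunction D ℝ ⊤, ∀ᵐ p ∂(PP P μ),
      Tendsto (fun ε => ∫ z, centred P V μ F p z ε * φ z) (𝓝[>] 0) (𝓝 (H p φ)))
    (hm : ∀ φ : TestFunction D ℝ ⊤, AEMeasurable (fun p => H p φ) (PP P μ)) :
    ∃ φ : ℕ → TestFunction D ℝ ⊤, ∀ A η : ℝ, 0 < η → ∃ C : ℝ, ∀ (n k : ℕ)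
      (E : Set (Ω × (Iic n → ℝ))), MeasurableSet[(mY f n).prod MeasurableSpace.pi] E →
      (∀ p : Ω × (ℕ → ℝ), (p.1, fun m : Iic n => p.2 (i m p.1)) ∈ E →
        k - A ≤ Tt f n p.1 ∧ Tt f n p.1 ≤ k) →
      PP P μ ({p | (p.1, fun m : Iic n => p.2 (i m p.1)) ∈ E} ∩
        {p | C < |H p (φ k) - ∑ l ∈ Finset.range (n + 1), p.2 (i l p.1) +
          (∫ x, x ∂μ) * k / ∫ b, b ∂(P.map (Bb f 0))|}) ≤
        ENNReal.ofReal η * PP P μ {p | (p.1, fun m : Iic n => p.2 (i m p.1)) ∈ E} := by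
  have Fu := hF.univ
  have a0 : 0 < ‖deriv F 0‖ :=
    norm_pos_iff.mpr (univ_deriv_ne_zero isOpen_ball Fu.1 Fu.2 (mem_ball_self one_pos))
  obtain ⟨r, φ₀, hr, hφ, φ0, hs, φ1, hK⟩ := exists_bump a0
  have hKF : ball (F 0) (2 * r) ⊆ F '' ball 0 (1 / 4) := by
    have := hK (resc 1 (F 0) F) (univ_resc one_pos _ Fu) (by simp [resc])
      (by rw [deriv_resc]; simp)
    have k := (surr_resc one_pos (F 0) F (ball 0 (1 / 4)) (F 0) (2 * r)).mpr (by simpa using this)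
    simpa using k
  choose φ hφk using fun k : ℕ =>
    exists_test hF hr (Real.one_le_exp (Nat.cast_nonneg k)) hφ hs hKF
  refine ⟨φ, fun A η hη => ?_⟩
  set m := (∫ x, x ∂μ) / ∫ b, b ∂(P.map (Bb f 0)) with hmdef
  obtain ⟨C₀, hmean⟩ := mean_bound4 h hw Fu μ hμ
  set a₂ := ‖deriv F 0‖ * Real.exp A with ha₂
  obtain ⟨c, C, δ₀, hc, hc1, hC, hδ₀, hCδ, hsw⟩ := sandwich Fu a0 a₂
  obtain ⟨C₂, hC₂⟩ := psi_tight hF μ H hlim hm hr hφ hs hK a₂ (half_pos hη)
  obtain ⟨C₃, C30, hC₃⟩ := err_tight4 h hw Fu μ hμ hc (hc1.trans hC) (half_pos hη)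
  obtain ⟨M₀, hM, hψ⟩ := exists_psi_bound hr hφ.continuous hs a₂
  refine ⟨2 * C₀ + M₀ * C₃ + C₂, fun n k E hE hT => ?_⟩
  set jh : Ω → ℂ → ℂ := fun ω => resc (Real.exp k) (F 0) fun w => F (f n ω w) with hjh
  have ju : ∀ ω, Univ (jh ω) := fun ω => univ_resc (Real.exp_pos _) _ (h.univ_comp Fu n ω).1
  have j0 : ∀ ω, jh ω 0 = 0 := fun ω => by simp [hjh, resc, h.f0 ω n]
  have jd : ∀ ω, (k - A ≤ Tt f n ω ∧ Tt f n ω ≤ k) →
      ‖deriv F 0‖ ≤ ‖deriv (jh ω) 0‖ ∧ ‖deriv (jh ω) 0‖ ≤ a₂ := by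
    intro ω hω
    have : ‖deriv (jh ω) 0‖ = ‖deriv F 0‖ * Real.exp (k - Tt f n ω) := by
      rw [hjh]
      simp only
      rw [deriv_resc, norm_mul, (h.univ_comp Fu n ω).2, Complex.norm_real,
        Real.norm_of_nonneg (Real.exp_pos _).le, sub_eq_add_neg, Real.exp_add]
      ring
    rw [this]
    exact ⟨le_mul_of_one_le_right a0.le (Real.one_le_exp (by linarith [hω.2])),
      mul_le_mul_of_nonneg_left (Real.exp_le_exp.mpr (by linarith [hω.1])) a0.le⟩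
  set Bad : Set ((Ω × (Iic n → ℝ)) × (Ens × (ℕ → ℝ))) := {x | x.1 ∈ E ∧
    ((∀ L, ∃ l, L ≤ l ∧ C₂ < |Psi F (EE P V μ F (rad l)) φ₀ (rad l) (jh x.1.1) x.2|) ∨
      ∃ L, ∀ l, L ≤ l → ENNReal.ofReal C₃ < Err F (c * rad l) (C * rad l) x.2)} with hBad
  have mBad : MeasurableSet[((mY f n).prod MeasurableSpace.pi).prod inferInstance] Bad := by
    have key : ∀ l : ℕ, Measurable[((mY f n).prod MeasurableSpace.pi).prod inferInstance]
        fun x : (Ω × (Iic n → ℝ)) × (Ens × (ℕ → ℝ)) =>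
          Psi F (EE P V μ F (rad l)) φ₀ (rad l) (jh x.1.1) x.2 := fun l =>
      @measurable_Psi (Ω × (Iic n → ℝ)) ((mY f n).prod MeasurableSpace.pi) F Fu _
        (measurable_EE h μ Fu _) φ₀ hφ.continuous (rad l) (fun y => jh y.1)
        (fun y => (ju y.1).1) fun z hz =>
          (measurable_jh h Fu n _ hz).comp (@measurable_fst Ω (Iic n → ℝ) (mY f n) _)
    let _ : MeasurableSpace (Ω × (Iic n → ℝ)) := (mY f n).prod MeasurableSpace.pi
    have s1 : MeasurableSet {x : (Ω × (Iic n → ℝ)) × (Ens × (ℕ → ℝ)) | x.1 ∈ E} :=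
      measurable_fst hE
    have s2 : MeasurableSet {x : (Ω × (Iic n → ℝ)) × (Ens × (ℕ → ℝ)) | ∀ L, ∃ l, L ≤ l ∧
        C₂ < |Psi F (EE P V μ F (rad l)) φ₀ (rad l) (jh x.1.1) x.2|} := by
      simp only [ofPred_forall, ofPred_exists, ofPred_and]
      exact MeasurableSet.iInter fun L => MeasurableSet.iUnion fun l =>
        (MeasurableSet.const _).inter (measurableSet_lt measurable_const (key l).abs)
    have s3 : MeasurableSet {x : (Ω × (Iic n → ℝ)) × (Ens × (ℕ → ℝ)) | ∃ L, ∀ l, L ≤ l →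
        ENNReal.ofReal C₃ < Err F (c * rad l) (C * rad l) x.2} := by
      simp only [ofPred_forall, ofPred_exists]
      exact MeasurableSet.iUnion fun L => MeasurableSet.iInter fun l => MeasurableSet.iInter
        fun _ => measurableSet_lt measurable_const ((measurable_Err Fu _ _).comp measurable_snd)
    exact s1.inter (s2.union s3)
  have mI : Measurable[((mY f n).prod MeasurableSpace.pi).prod inferInstance]
      (Bad.indicator (1 : (Ω × (Iic n → ℝ)) × (Ens × (ℕ → ℝ)) → ℝ≥0∞)) := by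
    let _ : MeasurableSpace (Ω × (Iic n → ℝ)) := (mY f n).prod MeasurableSpace.pi
    exact measurable_one.indicator mBad
  have fr := h.freeze μ n (Bad.indicator 1) mI
  have mξ : ∀ a : Ω → ℕ, Measurable a → Measurable fun p : Ω × (ℕ → ℝ) => p.2 (a p.1) :=
    fun a ha => (measurable_from_prod_countable_left (f := fun q : (ℕ → ℝ) × ℕ => q.1 q.2)
      fun l => measurable_pi_apply l).comp (measurable_snd.prodMk (ha.comp measurable_fst))
  have mY1 : Measurable[_, (mY f n).prod MeasurableSpace.pi]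
      fun p : Ω × (ℕ → ℝ) => (p.1, fun m : Iic n => p.2 (i m p.1)) :=
    (measurable_fst.prodMk (measurable_pi_lambda _ fun m : Iic n => mξ _ (h.imeas m))).mono le_rfl
      (sup_le_sup (MeasurableSpace.comap_mono (h.mY_le n)) le_rfl)
  have mE : MeasurableSet {p : Ω × (ℕ → ℝ) | (p.1, fun m : Iic n => p.2 (i m p.1)) ∈ E} := mY1 hE
  have mB : MeasurableSet {p : Ω × (ℕ → ℝ) | ((p.1, fun m : Iic n => p.2 (i m p.1)),
      ((fun l => pull (f n p.1) (V (e n l p.1) p.1) : Ens), fun l => p.2 (e n l p.1))) ∈ Bad} := by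
    let _ : MeasurableSpace (Ω × (Iic n → ℝ)) := (mY f n).prod MeasurableSpace.pi
    exact (mY1.prodMk (((h.measurable_inner n).comp measurable_fst).prodMk
      (measurable_pi_lambda _ fun l => mξ _ (h.emeas n l)))) mBad
  calc PP P μ ({p | (p.1, fun m : Iic n => p.2 (i m p.1)) ∈ E} ∩
        {p | 2 * C₀ + M₀ * C₃ + C₂ < |H p (φ k) - ∑ l ∈ Finset.range (n + 1), p.2 (i l p.1) +
          (∫ x, x ∂μ) * k / ∫ b, b ∂(P.map (Bb f 0))|})
      ≤ PP P μ {p | ((p.1, fun m : Iic n => p.2 (i m p.1)),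
          ((fun l => pull (f n p.1) (V (e n l p.1) p.1) : Ens), fun l => p.2 (e n l p.1))) ∈
            Bad} := by
        refine measure_mono_ae ?_
        filter_upwards [hlim (φ k)] with p hp hb
        obtain ⟨hpE, hb⟩ := hb
        refine ⟨hpE, ?_⟩
        by_contra hh
        push Not at hh
        obtain ⟨⟨L, hL⟩, hE3⟩ := hh
        obtain ⟨d1, d2⟩ := jd p.1 (hT p hpE)
        have hKj := hK _ (ju p.1) (j0 p.1) d1
        have t1 := hp.comp (tendsto_rad (inv_pos.mpr (Real.exp_pos k)))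
        have t2 := (t1.sub_const (∑ l ∈ Finset.range (n + 1), p.2 (i l p.1) - m * k)).abs
        have hb' : 2 * C₀ + M₀ * C₃ + C₂ <
            |H p (φ k) - (∑ l ∈ Finset.range (n + 1), p.2 (i l p.1) - m * k)| := by
          have hb2 : 2 * C₀ + M₀ * C₃ + C₂ < |H p (φ k) -
            ∑ l ∈ Finset.range (n + 1), p.2 (i l p.1) +
              (∫ x, x ∂μ) * k / ∫ b, b ∂(P.map (Bb f 0))| := hb
          convert hb2 using 2
          rw [hmdef]; ring
        obtain ⟨L₁, hL₁⟩ := eventually_atTop.mp (((t2.eventually (lt_mem_nhds hb')).and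
          (ev_rad_le hδ₀)).and (ev_rad_le hr))
        obtain ⟨l, hl, hl3⟩ := hE3 (max L L₁)
        obtain ⟨⟨b1, b2⟩, b3⟩ := hL₁ l ((le_max_right _ _).trans hl)
        have b4 := hL l ((le_max_left _ _).trans hl)
        have b5 : rad l ≤ 1 := by nlinarith [rad_pos l]
        have db := det_bound h Fu μ (m := m) hmean hr hφ.continuous φ0 hs φ1 hKF n k p hKj hM
          (hψ _ (ju p.1) d2 hKj) hc hc1 hC (rad_pos l) b5 b3
          (fun ζ hζ => hsw _ (ju p.1) d1 d2 ζ hζ _ (rad_pos l) b2) C30 hl3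
        simp only [Function.comp, hφk] at b1
        have tri := abs_sub_abs_le_abs_sub
          ((∫ z, centred P V μ F p z ((Real.exp k)⁻¹ * rad l) *
            (Real.exp k ^ 2 * φ₀ ((Real.exp k : ℝ) * (z - F 0)))) -
            (∑ l ∈ Finset.range (n + 1), p.2 (i l p.1) - m * k))
          (Psi F (EE P V μ F (rad l)) φ₀ (rad l) (jh p.1)
            (fun l => pull (f n p.1) (V (e n l p.1) p.1), fun l => p.2 (e n l p.1)))
        linarith
    _ ≤ ∫⁻ p, Bad.indicator 1 ((p.1, fun m : Iic n => p.2 (i m p.1)),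
          ((fun l => pull (f n p.1) (V (e n l p.1) p.1) : Ens), fun l => p.2 (e n l p.1)))
          ∂(PP P μ) := (lintegral_indicator_one mB).symm.le
    _ = _ := fr
    _ ≤ ∫⁻ p, {p : Ω × (ℕ → ℝ) | (p.1, fun m : Iic n => p.2 (i m p.1)) ∈ E}.indicator
          (fun _ => ENNReal.ofReal η) p ∂(PP P μ) := by
        refine lintegral_mono fun p => ?_
        by_cases hpE : (p.1, fun m : Iic n => p.2 (i m p.1)) ∈ E
        · rw [indicator_of_mem (show p ∈ {p : Ω × (ℕ → ℝ) |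
            (p.1, fun m : Iic n => p.2 (i m p.1)) ∈ E} from hpE)]
          obtain ⟨d1, d2⟩ := jd p.1 (hT p hpE)
          refine le_trans (lintegral_indicator_one_le (μ := PP P μ)
            {q : Ω × (ℕ → ℝ) | ((p.1, fun m : Iic n => p.2 (i m p.1)),
              ((fun k => V k q.1 : Ens), q.2)) ∈ Bad}) ?_
          refine le_trans (measure_mono fun q hq => hq.2) ?_
          refine (measure_union_le _ _).trans ?_
          rw [← add_halves η, ENNReal.ofReal_add (half_pos hη).le (half_pos hη).le]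
          exact add_le_add (hC₂ _ (ju p.1) (j0 p.1) d1 d2) hC₃
        · rw [indicator_of_notMem (show p ∉ {p : Ω × (ℕ → ℝ) |
            (p.1, fun m : Iic n => p.2 (i m p.1)) ∈ E} from hpE)]
          refine le_of_eq (lintegral_eq_zero_of_ae_eq_zero (ae_of_all _ fun q => ?_))
          exact indicator_of_notMem (fun hq => hpE hq.1) _
    _ = _ := lintegral_indicator_const mE _

theorem two4 [IsProbabilityMeasure P] (h : Sk 4 P V i f e)
    {D : Opens ℂ} {F : ℂ → ℂ} (hF : Conf F D) (μ : Measure ℝ)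
    [IsProbabilityMeasure μ] (hμ : MemLp id 2 μ) (H : Ω × (ℕ → ℝ) → Distribution D ℝ ⊤)
    (hlim : ∀ φ : TestFunction D ℝ ⊤, ∀ᵐ p ∂(PP P μ),
      Tendsto (fun ε => ∫ z, centred P V μ F p z ε * φ z) (𝓝[>] 0) (𝓝 (H p φ)))
    (hG : ∀ φ : TestFunction D ℝ ⊤, HasGaussianLaw (fun p => H p φ) (PP P μ)) :
    ∃ c : ℝ, 0 ≤ c ∧ μ = (2⁻¹ : ℝ≥0∞) • (Measure.dirac c + Measure.dirac (-c)) := by
  obtain ⟨φ, hφ⟩ := couple4 h (walk4 h) hF μ hμ H hlim fun φ => (hG φ).aemeasurable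
  have mξ : ∀ a : Ω → ℕ, Measurable a → Measurable fun p : Ω × (ℕ → ℝ) => p.2 (a p.1) :=
    fun a ha => (measurable_from_prod_countable_left (f := fun q : (ℕ → ℝ) × ℕ => q.1 q.2)
      fun l => measurable_pi_apply l).comp (measurable_snd.prodMk (ha.comp measurable_fst))
  have : IsProbabilityMeasure (P.map (Bb f 0)) :=
    Measure.isProbabilityMeasure_map (h.measurable_Bb 0).aemeasurable
  obtain ⟨hind, hlaw⟩ := h.indep_Z μ
  let G : ℕ → MeasurableSpace (Ω × (ℕ → ℝ)) := fun n => match n with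
    | 0 => ⊥
    | n + 1 => MeasurableSpace.comap (fun p => (p.1, fun m : Iic n => p.2 (i m p.1)))
        ((mY f n).prod MeasurableSpace.pi)
  refine two_of_coupling (P := PP P μ) (β := P.map (Bb f 0)) (B := fun n p => Bb f n p.1)
    (ξ := fun n p => p.2 (i n p.1)) (X := fun k p => H p (φ k))
    (fun n => (h.measurable_Bb n).comp measurable_fst) (fun n => mξ _ (h.imeas n)) hind hlaw
    ((ae_map_iff (h.measurable_Bb 0).aemeasurable measurableSet_Ici).mpr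
      (ae_of_all _ (h.Bb_nonneg 0))) (ssw4 h) hμ (fun k => hG (φ k)) G ?_ 0 ?_
  · intro n l hl
    cases n with
    | zero => omega
    | succ n =>
      have hm : Measurable[G (n + 1), (mY f n).prod MeasurableSpace.pi]
          fun p : Ω × (ℕ → ℝ) => (p.1, fun m : Iic n => p.2 (i m p.1)) :=
        Measurable.of_comap_le le_rfl
      have hln : l ≤ n := by omega
      exact ⟨((h.measurable_Bb_mY hln).comp (@measurable_fst Ω (Iic n → ℝ) (mY f n) _)).comp hm,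
        ((measurable_pi_apply (⟨l, hln⟩ : Iic n)).comp
          (@measurable_snd Ω (Iic n → ℝ) (mY f n) _)).comp hm⟩
  · intro A η hη
    obtain ⟨C, hC⟩ := hφ A η hη
    refine ⟨C, fun n k hn _ E hE hT => ?_⟩
    cases n with
    | zero => omega
    | succ n =>
      obtain ⟨E', hE', rfl⟩ := hE
      refine hC n k E' hE' fun p hp => ?_
      have := hT p hp
      simp only [psum, sum_Bb, sub_zero] at this
      exact this

theorem main4 [IsProbabilityMeasure P] (hV : IsCLE 4 P V)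
    {D : Opens ℂ} {F : ℂ → ℂ} (hF : Conf F D) (μ : Measure ℝ) [IsProbabilityMeasure μ]
    (hμ : MemLp id 2 μ) (H : Ω × (ℕ → ℝ) → Distribution D ℝ ⊤)
    (hlim : ∀ φ : TestFunction D ℝ ⊤, ∀ᵐ p ∂(PP P μ),
      Tendsto (fun ε => ∫ z, centred P V μ F p z ε * φ z) (𝓝[>] 0) (𝓝 (H p φ)))
    (hG : ∀ φ : TestFunction D ℝ ⊤, HasGaussianLaw (fun p => H p φ) (PP P μ)) :
    ∃ c : ℝ, 0 ≤ c ∧ μ = (2⁻¹ : ℝ≥0∞) • (Measure.dirac c + Measure.dirac (-c)) := by
  obtain ⟨Ω₀, _, P₀, _, V₀, i, f, e, T, hS, hT, hN⟩ := reduce hV μ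
  have hc : ∀ p z ε, centred P₀ V₀ μ F p z ε = centred P V μ F (T p) z ε := by
    intro p z ε
    unfold centred
    simp only [hN]
    congr 1
    have m : Measurable fun q : Ω × (ℕ → ℝ) => nestSum F (fun k => V k q.1) q.2 z ε :=
      (measurable_nestSum hF.univ ε).comp (((measurable_pi_lambda _ fun k =>
        (hV.meas k).comp measurable_fst).prodMk measurable_snd).prodMk measurable_const)
    have := integral_map (μ := PP P₀ μ) hT.measurable.aemeasurable m.aestronglyMeasurable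
    rw [hT.map_eq] at this
    exact this.symm
  refine two4 hS hF μ hμ (fun p => H (T p)) (fun φ => ?_) fun φ => ?_
  · simp only [hc]
    exact hT.quasiMeasurePreserving.ae (hlim φ)
  · refine ⟨?_⟩
    have := (hG φ).isGaussian_map
    have a := (hG φ).aemeasurable
    rw [← hT.map_eq] at this a
    rwa [AEMeasurable.map_map_of_aemeasurable a hT.measurable.aemeasurable] at this

end Pool.Agent.MP_ac6554_pr.Four
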